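import Mathlib

set_option autoImplicit false

namespace Pool.Agent.Results.MP_b8ee47_co.Factor

open Finset

variable {n : ℕ}

/-- The tropical polynomial `x ↦ max_{a ∈ A} (c a + a · x)`. -/
noncomputable def trop (A : Finset (Fin n → ℕ)) (h : A.Nonempty) (c : (Fin n → ℕ) → ℝ)
    (x : Fin n → ℝ) : ℝ := A.sup' h fun a => c a + ∑ i, a i * x i

/-- A unit: a tropical polynomial whose Legendre transform is affine on its Newton polytope. -/
def IsUnit' (f : (Fin n → ℝ) → ℝ) : Prop := ∃ A h c, f = trop A h c ∧ ∃ (v : Fin n → ℝ) (d : ℝ),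
  ∀ p ∈ convexHull ℝ ((fun a i => (a i : ℝ)) '' (A : Set (Fin n → ℕ))),
    IsLUB (Set.range fun x => ∑ i, p i * x i - f x) (∑ i, p i * v i + d)

/-- A finite tropical product (pointwise sum) of units. -/
def IsProd (g : (Fin n → ℝ) → ℝ) : Prop :=
  ∃ l : List ((Fin n → ℝ) → ℝ), (∀ u ∈ l, IsUnit' u) ∧ g = l.sum

def RF : AddSubgroup ((Fin n → ℝ) → ℝ) where
  carrier := {f | ∃ g h, IsProd g ∧ IsProd h ∧ f + g = h}
  zero_mem' := ⟨0, 0, ⟨[], by simp, rfl⟩, ⟨[], by simp, rfl⟩, add_zero _⟩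
  add_mem' := by
    rintro _ _ ⟨_, _, ⟨l, a, rfl⟩, ⟨m, b, e⟩, rfl⟩ ⟨_, _, ⟨l', a', rfl⟩, ⟨m', b', e'⟩, rfl⟩
    exact ⟨_, _, ⟨l ++ l', List.forall_mem_append.2 ⟨a, a'⟩, rfl⟩,
      ⟨m ++ m', List.forall_mem_append.2 ⟨b, b'⟩, rfl⟩, by
        rw [List.sum_append, List.sum_append, ← e, ← e']; abel⟩
  neg_mem' := fun ⟨g, h, a, b, e⟩ => ⟨h, g, b, a, by rw [← e]; abel⟩

lemma unit (A : Finset (Fin n → ℕ)) (h : A.Nonempty) (c : (Fin n → ℕ) → ℝ) (v : Fin n → ℝ) (d : ℝ)
    (e : ∀ a ∈ A, -c a = ∑ i, a i * v i + d) : IsUnit' (trop A h c) := by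
  refine ⟨A, h, c, rfl, v, d, fun p hp => IsGreatest.isLUB ⟨⟨v, ?_⟩, ?_⟩⟩
  · have : trop A h c v = -d := (sup'_congr h rfl fun a ha => by linarith [e a ha]).trans
      (sup'_const h _)
    simp [this]
  · rintro _ ⟨x, rfl⟩
    refine convexHull_min (t := {p | ∑ i, p i * x i - trop A h c x ≤ ∑ i, p i * v i + d}) ?_ ?_ hp
    · rintro _ ⟨a, ha, rfl⟩
      have : _ ≤ trop A h c x := le_sup' (fun a => c a + ∑ i, a i * x i) ha
      have := e a ha
      simp only [Set.mem_ofPred]; linarith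
    · intro p hp q hq s t hs ht st
      simp only [Set.mem_ofPred, Pi.add_apply, Pi.smul_apply, smul_eq_mul, add_mul, mul_assoc,
        sum_add_distrib, ← mul_sum] at *
      obtain rfl := eq_sub_of_add_eq st
      nlinarith [mul_le_mul_of_nonneg_left hp hs, mul_le_mul_of_nonneg_left hq ht]

lemma aff (A : Finset (Fin n → ℕ)) (c : (Fin n → ℕ) → ℝ) :
    (∃ (v : Fin n → ℝ) (d : ℝ), ∀ a ∈ A, -c a = ∑ i, a i * v i + d) ∨ ∃ l : (Fin n → ℕ) → ℝ,
      ∑ a ∈ A, l a = 0 ∧ (∀ i, ∑ a ∈ A, l a * a i = 0) ∧ ∑ a ∈ A, l a * c a < 0 := by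
  let W : Submodule ℝ (A → ℝ) := Submodule.span ℝ (Set.range fun o : Option (Fin n) =>
    fun a : A => o.elim 1 fun i => (a.1 i : ℝ))
  by_cases h : (fun a : A => -c a) ∈ W
  · obtain ⟨u, hu⟩ := (Submodule.mem_span_range_iff_exists_fun ℝ).1 h
    refine .inl ⟨fun i => u i, u none, fun a ha => ?_⟩
    rw [← show _ = -c a from congrFun hu ⟨a, ha⟩]
    simp [Fintype.sum_option, mul_comm, add_comm]
  obtain ⟨φ, h1, h2⟩ := W.exists_le_ker_of_notMem h
  have k : ∀ y : (Fin n → ℕ) → ℝ, ∑ a ∈ A, (if h : a ∈ A then φ (Pi.single ⟨a, h⟩ 1) else 0) * y a =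
      φ fun a => y a := fun y => by
    rw [← sum_coe_sort, LinearMap.pi_apply_eq_sum_univ φ]
    exact sum_congr rfl fun a _ => by
      rw [dif_pos a.2, smul_eq_mul, mul_comm]; congr 2; ext; simp [Pi.single_apply, eq_comm]
  refine .inr ⟨fun a => φ (fun a => -c a) * if h : a ∈ A then φ (Pi.single ⟨a, h⟩ 1) else 0, ?_,
    fun i => ?_, ?_⟩
  · have := (k 1).trans (h2 (Submodule.subset_span ⟨none, rfl⟩))
    simp only [Pi.one_apply, mul_one] at this
    rw [← mul_sum, this, mul_zero]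
  · simp only [mul_assoc]
    rw [← mul_sum, (k fun a => a i).trans (h2 (Submodule.subset_span ⟨some i, rfl⟩)), mul_zero]
  · simp only [mul_assoc]
    rw [← mul_sum, k, show (fun a : A => c a) = -fun a : A => -c a by ext; simp, map_neg]
    nlinarith [sq_pos_of_ne_zero h1]

lemma key (A : Finset (Fin n → ℕ)) : ∀ h c, trop A h c ∈ RF := by
  classical
  induction A using Finset.strongInduction with | _ A ih => ?_
  intro h c
  rcases aff A c with ⟨v, d, e⟩ | ⟨l, l1, l2, l3⟩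
  · exact ⟨0, _, ⟨[], by simp, rfl⟩, ⟨[trop A h c], by simpa using unit A h c v d e, by simp⟩,
      add_zero _⟩
  obtain ⟨b, hb, lb⟩ : ∃ b ∈ A, l b < 0 := by
    by_contra! k
    rw [sum_eq_zero fun a ha => by rw [(sum_eq_zero_iff_of_nonneg k).1 l1 a ha, zero_mul]] at l3
    exact l3.false
  let P := {a ∈ A | 0 < l a}
  have ne : ∀ S ⊆ P, (A \ S).Nonempty := fun S hS =>
    ⟨b, mem_sdiff.2 ⟨hb, fun k => (mem_filter.1 (hS k)).2.not_gt lb⟩⟩
  let F (S : Finset (Fin n → ℕ)) := if h : (A \ S).Nonempty then trop _ h c else 0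
  have z : ∑ S ∈ P.powerset, (-1 : ℤ) ^ #S • F S = 0 := by
    ext x
    obtain ⟨j, hj, b', hb', lb', jb⟩ : ∃ j ∈ P, ∃ b ∈ A, l b ≤ 0 ∧
        c j + ∑ i, j i * x i ≤ c b + ∑ i, b i * x i := by
      by_contra! k
      obtain ⟨m, hm, mm⟩ := exists_max_image {a ∈ A | l a ≤ 0} (fun a => c a + ∑ i, a i * x i)
        ⟨b, mem_filter.2 ⟨hb, lb.le⟩⟩
      have : 0 ≤ ∑ a ∈ A, l a * (c a + ∑ i, a i * x i - (c m + ∑ i, m i * x i)) :=
        sum_nonneg fun a ha => (le_or_gt (l a) 0).elim (fun q => mul_nonneg_of_nonpos_of_nonpos q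
          (sub_nonpos.2 (mm a (mem_filter.2 ⟨ha, q⟩)))) fun q => mul_nonneg q.le (sub_nonneg.2
          (k a (mem_filter.2 ⟨ha, q⟩) m (mem_filter.1 hm).1 (mem_filter.1 hm).2).le)
      generalize c m + ∑ i, m i * x i = M at this
      simp only [mul_sub, mul_add (l _) (c _), sum_sub_distrib, sum_add_distrib, ← sum_mul, l1,
        mul_sum, ← mul_assoc] at this
      rw [sum_comm] at this
      simp only [← sum_mul, l2] at this
      simp at this; linarith
    rw [← insert_erase hj, sum_powerset_insert (notMem_erase _ _), ← sum_add_distrib,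
      Finset.sum_apply]
    refine sum_eq_zero fun S hS => ?_
    have s1 := mem_powerset.1 hS
    have s2 : S ⊆ P := s1.trans (erase_subset _ _)
    have s3 := insert_subset hj s2
    have : F (insert j S) x = F S x := by
      simp only [F, dif_pos (ne _ s2), dif_pos (ne _ s3), trop]
      refine (sup'_mono _ (sdiff_subset_sdiff subset_rfl (subset_insert _ _)) _).antisymm
        (sup'_le _ _ fun a ha => ?_)
      by_cases q : a = j
      · exact q ▸ jb.trans (le_sup' (fun a => c a + ∑ i, a i * x i)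
          (mem_sdiff.2 ⟨hb', fun k => (mem_filter.1 (s3 k)).2.not_ge lb'⟩))
      · exact le_sup' (fun a => c a + ∑ i, a i * x i) (by grind)
    rw [card_insert_of_notMem fun k => notMem_erase _ _ (s1 k)]
    simp [pow_succ, this]
  rw [← add_sum_erase _ _ (empty_mem_powerset P), add_eq_zero_iff_eq_neg] at z
  have : F ∅ = trop A h c := by
    simp only [F, dif_pos (ne _ (empty_subset _))]; congr 1; exact sdiff_empty
  rw [← this, ← one_zsmul (F ∅)]
  refine (show _ = _ from z) ▸ RF.neg_mem (RF.sum_mem fun S hS => RF.zsmul_mem ?_ _)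
  have s := mem_powerset.1 (mem_erase.1 hS).2
  simp only [F, dif_pos (ne _ s)]
  exact ih _ (sdiff_ssubset (s.trans (filter_subset _ _)) (nonempty_of_ne_empty (mem_erase.1 hS).1)) _ _

theorem result (n : ℕ) (A : Finset (Fin n → ℕ)) (h : A.Nonempty) (c : (Fin n → ℕ) → ℝ) :
    ∃ g k, IsProd g ∧ IsProd k ∧ trop A h c + g = k := key A h c

end Pool.Agent.Results.MP_b8ee47_co.Factor
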